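import Pool.Agent.Helper37.RG3.Goals

set_option autoImplicit false

/-!
# Packet BIP (MP_0c2bb8_co)
-/

namespace Pool.Agent.Helper33.RG3

open Finset Pool.Agent.Helper37.RG3

variable {V : Type} [Fintype V] [DecidableEq V]

/-- regular bipartite weights -/
structure Bi (U A S : Finset V) (w : V → V → ℕ) (r : ℕ) : Prop where
  symm : ∀ u v, w u v = w v u
  irr : ∀ u, w u u = 0
  supp : ∀ u v, w u v ≠ 0 → u ∈ U
  deg : ∀ u ∈ U, ∑ v, w u v = r
  un : A ∪ S = U
  dis : Disjoint A S
  zA : ∀ u ∈ A, ∀ v ∈ A, w u v = 0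
  zS : ∀ u ∈ S, ∀ v ∈ S, w u v = 0

theorem Bi.swap {U A S : Finset V} {w : V → V → ℕ} {r : ℕ} (h : Bi U A S w r) :
    Bi U S A w r :=
  ⟨h.symm, h.irr, h.supp, h.deg, by rw [Finset.union_comm]; exact h.un, h.dis.symm, h.zS, h.zA⟩

theorem Bi.bt_deg {U A S : Finset V} {w : V → V → ℕ} {r : ℕ} (h : Bi U A S w r)
    {X : Finset V} (hX : X ⊆ U) : bt w X univ = r * X.card := by
  unfold bt
  rw [Finset.sum_congr rfl (fun u hu => h.deg u (hX hu)), Finset.sum_const, smul_eq_mul, mul_comm]

theorem Bi.half {U A S : Finset V} {w : V → V → ℕ} {r : ℕ} (h : Bi U A S w r)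
    {X : Finset V} (hX : X ⊆ U) (hlt : (X ∩ S).card < (X ∩ A).card) : r ≤ ct w X := by
  have hXe : X = (X ∩ A) ∪ (X ∩ S) := by
    rw [← Finset.inter_union_distrib_left, h.un]
    exact (Finset.inter_eq_left.mpr hX).symm
  have hd : Disjoint (X ∩ A) (X ∩ S) :=
    Finset.disjoint_of_subset_left Finset.inter_subset_right
      (Finset.disjoint_of_subset_right Finset.inter_subset_right h.dis)
  have h1 := h.bt_deg (X := X ∩ A) (Finset.inter_subset_left.trans hX)
  have h2 := h.bt_deg (X := X ∩ S) (Finset.inter_subset_left.trans hX)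
  have h3 : bt w (X ∩ A) univ = bt w (X ∩ A) X + bt w (X ∩ A) Xᶜ := by
    rw [← bt_union_right w _ disjoint_compl_right]
    congr 1
    ext v; simp
  have h4 : bt w (X ∩ A) X = bt w (X ∩ A) (X ∩ S) := by
    have h5 : bt w (X ∩ A) (X ∩ A) = 0 := by
      rw [bt_eq_zero]
      intro a ha b hb
      exact h.zA a (Finset.mem_inter.mp ha).2 b (Finset.mem_inter.mp hb).2
    have h5' : bt w (X ∩ A) (X ∩ A ∪ X ∩ S) = bt w (X ∩ A) (X ∩ A) + bt w (X ∩ A) (X ∩ S) :=
      bt_union_right w _ hd
    rwa [← hXe, h5, zero_add] at h5'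
  have h6 : bt w (X ∩ A) (X ∩ S) ≤ bt w (X ∩ S) univ := by
    rw [bt_comm w h.symm]
    exact bt_mono w (Finset.Subset.refl _) (Finset.subset_univ _)
  have h7 : bt w (X ∩ A) Xᶜ ≤ ct w X := bt_mono w Finset.inter_subset_left (Finset.Subset.refl _)
  have h8 : r * ((X ∩ S).card + 1) ≤ r * (X ∩ A).card := Nat.mul_le_mul_left r hlt
  rw [mul_add, mul_one] at h8
  omega

theorem Bi.rg {U A S : Finset V} {w : V → V → ℕ} {r : ℕ} (h : Bi U A S w r) : RG U w r where
  symm := h.symm
  irr := h.irr
  supp := h.supp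
  deg := h.deg
  cut := by
    intro X hX ho
    have hXe : X = (X ∩ A) ∪ (X ∩ S) := by
      rw [← Finset.inter_union_distrib_left, h.un]
      exact (Finset.inter_eq_left.mpr hX).symm
    have hd : Disjoint (X ∩ A) (X ∩ S) :=
      Finset.disjoint_of_subset_left Finset.inter_subset_right
        (Finset.disjoint_of_subset_right Finset.inter_subset_right h.dis)
    have hc : X.card = (X ∩ A).card + (X ∩ S).card := by
      conv_lhs => rw [hXe]
      exact Finset.card_union_of_disjoint hd
    obtain ⟨k, hk⟩ := ho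
    rcases lt_trichotomy (X ∩ S).card (X ∩ A).card with h1 | h1 | h1
    · exact h.half hX h1
    · omega
    · exact h.swap.half hX h1

theorem Bi.rem {U A S : Finset V} {w : V → V → ℕ} {m : V → V} {r : ℕ} (h : Bi U A S w (r + 1))
    (hm : PM U w m) : Bi U A S (rem w m) r where
  symm := rem_symm h.symm hm.invol
  irr := by
    intro u
    have h1 := h.irr u
    rw [rem_add hm u u] at h1
    omega
  supp := by
    intro u v huv
    apply h.supp u v
    rw [rem_add hm u v]
    omega
  deg := by
    intro u hu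
    have h1 := h.deg u hu
    rw [Finset.sum_congr rfl (fun v _ => rem_add hm u v), Finset.sum_add_distrib] at h1
    have h2 : ∑ v, (if u ≠ v ∧ m u = v then 1 else 0) = 1 := by
      rw [Finset.sum_eq_single_of_mem (m u) (mem_univ _)]
      · rw [if_pos]
        exact ⟨(hm.ne h.rg hu).symm, rfl⟩
      · intro v _ hv
        rw [if_neg]
        rintro ⟨_, rfl⟩
        exact hv rfl
    omega
  un := h.un
  dis := h.dis
  zA := by
    intro u hu v hv
    have h1 := h.zA u hu v hv
    rw [rem_add hm u v] at h1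
    omega
  zS := by
    intro u hu v hv
    have h1 := h.zS u hu v hv
    rw [rem_add hm u v] at h1
    omega

theorem col_zero {w : V → V → ℕ} (h : ∀ u v, w u v = 0) : Col w 0 :=
  ⟨fun i => i.elim0, fun i => i.elim0, fun u v _ => by rw [h]; simp⟩

theorem Bi.col (hx : XPM) {U A S : Finset V} : ∀ (r : ℕ) {w : V → V → ℕ}, Bi U A S w r →
    Col w r := by
  intro r
  induction r with
  | zero =>
    intro w h
    apply col_zero
    intro u v
    by_contra hne
    have h1 := h.deg u (h.supp u v hne)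
    rw [Finset.sum_eq_zero_iff] at h1
    exact hne (h1 v (mem_univ v))
  | succ r ih =>
    intro w h
    obtain ⟨m, hm⟩ := hx V U w (r + 1) h.rg (Nat.succ_pos r)
    exact Col.of_rem hm (ih (h.rem hm))

theorem bip (hx : XPM) : BIP := by
  intro V _ _ U S w r h hS hcard hz
  rcases Nat.eq_zero_or_pos r with rfl | hr
  · apply col_zero
    intro u v
    by_contra hne
    have h1 := h.deg u (h.supp u v hne)
    rw [Finset.sum_eq_zero_iff] at h1
    exact hne (h1 v (mem_univ v))
  · have hA : U \ S ⊆ U := Finset.sdiff_subset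
    have hd : Disjoint (U \ S) S := Finset.sdiff_disjoint
    have hun : (U \ S) ∪ S = U := Finset.sdiff_union_of_subset hS
    have h1 := h.bt_deg' hA
    have h2 := h.bt_deg' hS
    have h3 : bt w (U \ S) U = bt w (U \ S) S := by
      have h4 : bt w (U \ S) ((U \ S) ∪ S) = bt w (U \ S) (U \ S) + bt w (U \ S) S :=
        bt_union_right w _ hd
      have h5 : bt w (U \ S) (U \ S) = 0 := by
        rw [bt_eq_zero]
        exact hz
      rw [hun, h5, zero_add] at h4
      exact h4
    have h6 : bt w S U = bt w S (U \ S) + bt w S S := by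
      have h4 : bt w S ((U \ S) ∪ S) = bt w S (U \ S) + bt w S S := bt_union_right w _ hd
      rwa [hun] at h4
    have h7 : bt w (U \ S) S = bt w S (U \ S) := bt_comm w h.symm _ _
    have h8 : r * S.card ≤ r * (U \ S).card := Nat.mul_le_mul_left r hcard
    have h9 : bt w S S = 0 := by omega
    have hBi : Bi U (U \ S) S w r :=
      ⟨h.symm, h.irr, h.supp, h.deg, hun, hd, hz, fun u hu v hv => (bt_eq_zero w).mp h9 u hu v hv⟩
    exact hBi.col hx r

end Pool.Agent.Helper33.RG3
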